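import Mathlib.Algebra.Order.Archimedean.Basic
import Mathlib.Data.Real.Archimedean
import Mathlib.Tactic.Positivity
import Mathlib.Tactic.Linarith
import Mathlib.Tactic.FieldSimp

/-!
# Inequalities between characteristic numbers and their asymptotic form
-/

set_option autoImplicit false

namespace Pool.Agent.X308.Sy

/-- A class of closed oriented four-manifolds with their Euler characteristic `e` and signature
`σ`, such that for every `X` there are `Y` in the class with `e Y = k e X` and `σ Y = k σ X` for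
arbitrarily large `k` (for example a `k`-fold covering or fibre sum along a torus). -/
structure AmplifiableClass where
  /-- the manifolds -/
  Obj : Type
  /-- the Euler characteristic -/
  e : Obj → ℤ
  /-- the signature -/
  σ : Obj → ℤ
  amplify : ∀ (X : Obj) (m : ℕ), ∃ k : ℕ, m ≤ k ∧ ∃ Y, e Y = k * e X ∧ σ Y = k * σ X

namespace AmplifiableClass

variable (C : AmplifiableClass)

/-- The inequality `3 σ ≤ e`, equivalently `c_1^2 ≤ 3 c_2`. -/
def Inequality : Prop := ∀ X, 3 * C.σ X ≤ C.e X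

/-- The inequality up to an error `o(|e| + |σ|)`. -/
def AsymptoticInequality : Prop := ∀ ε : ℝ, 0 < ε → ∃ A : ℝ, ∀ X,
  3 * (C.σ X : ℝ) ≤ C.e X + ε * (|(C.e X : ℝ)| + |(C.σ X : ℝ)|) + A

/-- A uniform violation in arbitrarily large manifolds. -/
def ManyCounterexamples : Prop := ∃ c : ℝ, 0 < c ∧ ∀ B : ℝ, ∃ X,
  B ≤ |(C.e X : ℝ)| + |(C.σ X : ℝ)| ∧
    c * (|(C.e X : ℝ)| + |(C.σ X : ℝ)|) ≤ 3 * (C.σ X : ℝ) - C.e X

variable {C}

theorem manyCounterexamples (h : ¬ C.Inequality) : C.ManyCounterexamples := by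
  unfold Inequality at h
  push Not at h
  obtain ⟨X, hX⟩ := h
  have hX' : (C.e X : ℝ) < 3 * C.σ X := by exact_mod_cast hX
  set s := |(C.e X : ℝ)| + |(C.σ X : ℝ)| with hs
  have hs0 : 0 < s := by
    by_contra hcon
    have h1 : |(C.e X : ℝ)| = 0 := le_antisymm (by
      have := abs_nonneg (C.σ X : ℝ)
      linarith) (abs_nonneg _)
    have h2 : |(C.σ X : ℝ)| = 0 := le_antisymm (by
      have := abs_nonneg (C.e X : ℝ)
      linarith) (abs_nonneg _)
    rw [abs_eq_zero] at h1 h2
    rw [h1, h2] at hX'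
    linarith
  refine ⟨(3 * C.σ X - C.e X) / s, div_pos (by linarith) hs0, fun B => ?_⟩
  obtain ⟨m, hm⟩ := exists_nat_ge (B / s)
  obtain ⟨k, hk, Y, h1, h2⟩ := C.amplify X m
  have h1' : (C.e Y : ℝ) = k * C.e X := by exact_mod_cast h1
  have h2' : (C.σ Y : ℝ) = k * C.σ X := by exact_mod_cast h2
  have h3 : |(C.e Y : ℝ)| + |(C.σ Y : ℝ)| = k * s := by
    rw [h1', h2', abs_mul, abs_mul, Nat.abs_cast, hs, mul_add]
  refine ⟨Y, ?_, ?_⟩
  · rw [h3]
    have h4 : (m : ℝ) ≤ k := by exact_mod_cast hk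
    rw [div_le_iff₀ hs0] at hm
    nlinarith
  · rw [h3, h1', h2']
    apply le_of_eq
    field_simp

theorem not_asymptoticInequality (h : C.ManyCounterexamples) : ¬ C.AsymptoticInequality := by
  obtain ⟨c, hc, h⟩ := h
  intro hcon
  obtain ⟨A, hA⟩ := hcon (c / 2) (by positivity)
  obtain ⟨X, h1, h2⟩ := h (2 * (|A| + 1) / c)
  have h3 := hA X
  have h4 := le_abs_self A
  rw [div_le_iff₀ hc] at h1
  nlinarith

/-- **Theorem.** -/
theorem iff_asymptotic : (C.Inequality ↔ C.AsymptoticInequality) ∧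
    (¬ C.Inequality ↔ C.ManyCounterexamples) := by
  have h1 : C.Inequality → C.AsymptoticInequality := fun h ε hε => ⟨0, fun X => by
    have h2 : 3 * (C.σ X : ℝ) ≤ C.e X := by exact_mod_cast h X
    have h3 : 0 ≤ ε * (|(C.e X : ℝ)| + |(C.σ X : ℝ)|) := by positivity
    linarith⟩
  refine ⟨⟨h1, fun h => ?_⟩, ⟨manyCounterexamples, fun h h' => ?_⟩⟩
  · by_contra hcon
    exact not_asymptoticInequality (manyCounterexamples hcon) h
  · exact not_asymptoticInequality h (h1 h')

end AmplifiableClass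

end Pool.Agent.X308.Sy
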